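import Pool.Agent.H573.AHB.UnI

/-!
Two further families of bad pairs, for `c^{2p} - b^{2p}` and `a^{2p} + b^{2p}`.
-/

set_option autoImplicit false

namespace Pool.Agent.H326.FC

open Polynomial
open Pool.Agent.H573.AHB

/-- the equality case of the trivial bound -/
lemma edge_eq (m : ℕ) (hm : 1 ≤ m) (z : ℂ) (hz : ‖z‖ = 1)
    (hF : ‖Fh (1 : ℂ) 1 z m‖ = 4 ^ m) : z ^ 2 - 1 = 0 := by
  have h3 := pow_FG (δ := (1 : ℂ)) (ω := 1) (by norm_num) 1 z m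
  have h4 := pow_FG' (δ := (1 : ℂ)) (ω := 1) (by norm_num) 1 z m
  have hsum : 2 * Fh (1 : ℂ) 1 z m = (1 + 1 * z) ^ (2 * m + 1) + (1 - 1 * z) ^ (2 * m + 1) := by
    rw [h3, h4]
    ring
  have par := parallelogram_law_with_norm ℝ (1 : ℂ) (1 * z)
  have hz1 : ‖(1 : ℂ) * z‖ = 1 := by rw [one_mul, hz]
  rw [hz1, norm_one] at par
  obtain ⟨A, hA⟩ : ∃ A : ℝ, A = ‖1 + 1 * z‖ := ⟨_, rfl⟩
  obtain ⟨B, hB⟩ : ∃ B : ℝ, B = ‖1 - 1 * z‖ := ⟨_, rfl⟩
  have hA0 : 0 ≤ A := by rw [hA]; exact norm_nonneg _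
  have hB0 : 0 ≤ B := by rw [hB]; exact norm_nonneg _
  rw [← hA, ← hB] at par
  have hpar : A ^ 2 + B ^ 2 = 4 := by nlinarith
  have hnorm : 2 * (4 : ℝ) ^ m ≤ A ^ (2 * m + 1) + B ^ (2 * m + 1) := by
    have h5 := congrArg (fun w : ℂ => ‖w‖) hsum
    simp only [norm_mul, hF, Complex.norm_ofNat] at h5
    rw [h5]
    refine (norm_add_le _ _).trans ?_
    rw [norm_pow, norm_pow, ← hA, ← hB]
  by_contra hne
  have hA2 : A ≠ 0 := by
    intro h0
    rw [hA, norm_eq_zero] at h0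
    apply hne
    linear_combination (z - 1) * h0
  have hB2 : B ≠ 0 := by
    intro h0
    rw [hB, norm_eq_zero] at h0
    apply hne
    linear_combination (- z - 1) * h0
  have hA1 : 0 < A := lt_of_le_of_ne hA0 (Ne.symm hA2)
  have hB1 : 0 < B := lt_of_le_of_ne hB0 (Ne.symm hB2)
  have hAl : A < 2 := by nlinarith
  have hBl : B < 2 := by nlinarith
  obtain ⟨k, rfl⟩ : ∃ k, m = k + 1 := ⟨m - 1, by omega⟩
  have e1 : A ^ (2 * k + 1) < 2 ^ (2 * k + 1) := pow_lt_pow_left₀ hAl hA0 (by omega)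
  have e2 : B ^ (2 * k + 1) < 2 ^ (2 * k + 1) := pow_lt_pow_left₀ hBl hB0 (by omega)
  have e3 : A ^ (2 * (k + 1) + 1) = A ^ 2 * A ^ (2 * k + 1) := by ring
  have e4 : B ^ (2 * (k + 1) + 1) = B ^ 2 * B ^ (2 * k + 1) := by ring
  have e5 : 2 * (4 : ℝ) ^ (k + 1) = 4 * 2 ^ (2 * k + 1) := by
    have : (4 : ℝ) ^ k = 2 ^ (2 * k) := by rw [pow_mul]; norm_num
    rw [pow_succ, pow_succ, this]
    ring
  rw [e3, e4, e5, ← hpar] at hnorm
  have f1 : A ^ 2 * A ^ (2 * k + 1) < A ^ 2 * 2 ^ (2 * k + 1) :=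
    mul_lt_mul_of_pos_left e1 (by positivity)
  have f2 : B ^ 2 * B ^ (2 * k + 1) < B ^ 2 * 2 ^ (2 * k + 1) :=
    mul_lt_mul_of_pos_left e2 (by positivity)
  nlinarith

/-- `c^{2p} - b^{2p} = a^s`, `a` odd, and `a^{2p} + b^{2p} = c^s` -/
def W4 (m q n : ℕ) : Prop :=
  OKm m ∧ (BadZ 1 m 1 1 (2 ^ (2 * m)) (X ^ 2 - 1) q n ∨ BadX 1 m 1 1 (2 ^ (2 * m)) False q n ∨
    BadY 1 m 1 1 (2 ^ (2 * m)) False q n)

/-- `c^{2p} - b^{2p} = a^s`, `a` even -/
def W5 (m q n : ℕ) : Prop :=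
  OKm m ∧ (BadZ 1 m 2 2 (2 ^ (2 * m)) 1 q n ∨ BadX 1 m 2 2 (2 ^ (2 * m)) False q n ∨
    BadY 1 m 2 2 (2 ^ (2 * m)) True q n)

theorem usparse_W4 : USparse W4 := by
  apply usparse_three
  · intro m hm
    refine us_Z 1 rfl m 1 1 (2 * m) hm le_rfl (by norm_num) le_rfl (by norm_num) le_rfl _ ?_
    intro z hz
    by_contra hcon
    push Not at hcon
    apply hz
    rw [map_sub, map_pow, aeval_X, map_one]
    obtain ⟨N0, hN0, h0⟩ := hcon 0
    obtain ⟨N1, hN1, h1⟩ := hcon 1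
    have k0 := norm_of_pow hN0 h0
    have k1 := norm_of_pow hN1 h1
    rw [ph_zero] at k0
    rw [ph_one] at k1
    simp only [cc, Matrix.cons_val_zero, Matrix.cons_val_one, Matrix.cons_val_two, Matrix.tail_cons,
      Matrix.head_cons, Nat.cast_one, one_mul, mul_one, one_pow, Int.cast_natCast, Int.cast_pow,
      Nat.cast_pow, Nat.cast_ofNat, Int.cast_one, abs_one, Int.cast_ofNat] at k0 k1
    rw [abs_of_pos (by positivity)] at k1
    refine edge_eq m hm.1 z k0 ?_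
    rw [k1, pow_mul]
    norm_num
  · intro m hm
    have hm1 := hm.1
    refine us_X 1 rfl m 1 1 (2 * m) hm le_rfl (by norm_num) le_rfl (by norm_num) le_rfl False
      (Or.inr ?_)
    rw [one_pow, one_mul]
    have : 2 ^ 1 ≤ 2 ^ (2 * m) := Nat.pow_le_pow_right (by norm_num) (by omega)
    omega
  · intro m hm
    have hm1 := hm.1
    refine us_Y 1 rfl m 1 1 (2 * m) hm le_rfl (by norm_num) le_rfl (by norm_num) le_rfl False
      (Or.inr ?_)
    rw [one_pow]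
    have : 2 ^ 1 ≤ 2 ^ (2 * m) := Nat.pow_le_pow_right (by norm_num) (by omega)
    omega

theorem usparse_W5 : USparse W5 := by
  apply usparse_three
  · intro m hm
    have hm1 := hm.1
    refine us_Z 1 rfl m 2 2 (2 * m) hm (by norm_num) le_rfl (by norm_num) le_rfl le_rfl 1 ?_
    refine HT_size 1 rfl m 2 2 (2 ^ (2 * m)) (by norm_num) (by norm_num) ?_ 1
    have e1 : 2 ^ (4 * m) = 16 ^ m := by rw [pow_mul]; norm_num
    have e2 : (2 ^ (2 * m)) ^ 2 = 16 ^ m := by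
      rw [← pow_mul, mul_comm (2 * m) 2, ← mul_assoc, pow_mul]
      norm_num
    have e3 : (2 ^ 2 * 2 ^ 2 + 1) ^ (2 * m + 1) = 289 ^ m * 17 := by
      rw [pow_succ, pow_mul]
      norm_num
    have e4 : 16 ^ m * 16 ^ m = 256 ^ m := by
      rw [← mul_pow]
      norm_num
    rw [e1, e2, e3]
    have : 256 ^ m < 289 ^ m := Nat.pow_lt_pow_left (by norm_num) (by omega)
    calc 16 ^ m * (16 ^ m * (2 ^ 2 * 2 ^ 2) + 16 ^ m) = (16 ^ m * 16 ^ m) * 17 := by ring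
      _ = 256 ^ m * 17 := by rw [e4]
      _ < 289 ^ m * 17 := by omega
  · intro m hm
    have hm1 := hm.1
    refine us_X 1 rfl m 2 2 (2 * m) hm (by norm_num) le_rfl (by norm_num) le_rfl le_rfl False
      (Or.inr ?_)
    have h1 : 2 ^ 1 ≤ 2 ^ (2 * m) := Nat.pow_le_pow_right (by norm_num) (by omega)
    have h2 : 1 ≤ 2 ^ (2 * m) := Nat.one_le_two_pow
    nlinarith
  · intro m hm
    exact us_Y 1 rfl m 2 2 (2 * m) hm (by norm_num) le_rfl (by norm_num) le_rfl le_rfl True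
      (Or.inl trivial)

end Pool.Agent.H326.FC
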