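import Pool.Agent.H326.FC.A

/-!
The local configuration with the constants `1, 4, 1`, and its scaling by two.
-/

set_option autoImplicit false

namespace Pool.Agent.H326.FC

open Polynomial
open Pool.Agent.H573.AHB

/-- The local configuration (helper573's `cfg`, with `b ≤ 4`). -/
theorem cfg4 (δ : ℤ) (hδ1 : δ.natAbs = 1) (m a b κ : ℕ) (hm : OKm m) (ha : ¬ (2 * m + 1) ∣ a)
    (hb : ¬ (2 * m + 1) ∣ b) (hκ : ¬ (2 * m + 1) ∣ κ) (hbq : b ≤ 4)
    (s q : ℕ) (hsp : s.Prime) (hs2 : 2 < s) (hq : q.Prime) (hqm : 2 * (2 * m + 1) < q)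
    (hsq : s ∣ q - 1) (U V F' G' x y : ℤ) (huv : IsCoprime U V) (hF : Fh δ U V m = κ * F')
    (hG : Gh δ U V m = κ * G') (hx : U * F' = a * x ^ s) (hy : b * V * G' = y ^ s)
    (haF : IsCoprime (a : ℤ) F') (hbG : IsCoprime (b : ℤ) G') :
    (¬ ((2 * m + 1 : ℕ) : ℤ) ∣ x → ¬ ((2 * m + 1 : ℕ) : ℤ) ∣ y → ∀ E : ℤ[X],
      (∀ t : ZMod q, (V : ZMod q) = U * t → aeval t E ≠ 0) → BadZ δ m a b κ E q ((q - 1) / s)) ∧
    (((2 * m + 1 : ℕ) : ℤ) ∣ x → ∀ zU : Prop, (zU → ¬ (q : ℤ) ∣ U) →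
      BadX δ m a b κ zU q ((q - 1) / s)) ∧
    (((2 * m + 1 : ℕ) : ℤ) ∣ y → ∀ zV : Prop, (zV → ¬ (q : ℤ) ∣ V) →
      BadY δ m a b κ zV q ((q - 1) / s)) := by
  have hF1 : Fact q.Prime := ⟨hq⟩
  have hsodd : Odd s := hsp.odd_of_ne_two (by omega)
  have hs0 : s ≠ 0 := by omega
  have hp := hm.2
  have hm1 := hm.1
  have hpp : Prime ((2 * m + 1 : ℕ) : ℤ) := Nat.prime_iff_prime_int.mp hp
  have hsn : s * ((q - 1) / s) = q - 1 := Nat.mul_div_cancel' hsq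
  have h1q : ((1 : ℕ) : ZMod q) ≠ 0 := by rw [Nat.cast_one]; exact one_ne_zero
  have hpq : ((2 * m + 1 : ℕ) : ZMod q) ≠ 0 := natCast_ne_zero_of_lt (by omega) (by omega) (ZMod q)
  have ha0 : a ≠ 0 := by rintro rfl; exact ha (dvd_zero _)
  have hb0 : b ≠ 0 := by rintro rfl; exact hb (dvd_zero _)
  have hκ0 : κ ≠ 0 := by rintro rfl; exact hκ (dvd_zero _)
  have hbq0 : ((b : ℕ) : ZMod q) ≠ 0 := natCast_ne_zero_of_lt (by omega) (by omega) (ZMod q)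
  have hδu : IsUnit δ := Int.isUnit_iff_natAbs_eq.mpr hδ1
  have hpδ : ¬ ((2 * m + 1 : ℕ) : ℤ) ∣ δ := by
    intro h
    have h3 := Int.natAbs_dvd_natAbs.mpr h
    rw [Int.natAbs_natCast, hδ1] at h3
    have := Nat.le_of_dvd one_pos h3
    omega
  have hud : IsCoprime U δ := ⟨0, δ, by rw [Int.isUnit_mul_self hδu]; ring⟩
  have hpk : IsCoprime ((2 * m + 1 : ℕ) : ℤ) (κ : ℤ) :=
    (hpp.coprime_iff_not_dvd).mpr (fun h => hκ (Int.natCast_dvd_natCast.mp h))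
  have hκz : (κ : ℤ) ≠ 0 := by exact_mod_cast hκ0
  have haz : ¬ ((2 * m + 1 : ℕ) : ℤ) ∣ (a : ℤ) := fun h => ha (Int.natCast_dvd_natCast.mp h)
  have hbz : ¬ ((2 * m + 1 : ℕ) : ℤ) ∣ (b : ℤ) := fun h => hb (Int.natCast_dvd_natCast.mp h)
  -- the parts without `p`
  have partU : ¬ ((2 * m + 1 : ℕ) : ℤ) ∣ U → ∃ w1 w3 : ℤ, U = a * w1 ^ s ∧ F' = w3 ^ s := by
    intro hpU
    have hFc := cop_F m hp δ U V huv hud hpU
    rw [hF] at hFc
    exact fac_pow a ha0 s hsodd U F' x hFc.of_mul_right_right haF hx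
  have partV : ¬ ((2 * m + 1 : ℕ) : ℤ) ∣ V → ∃ w2 w4 : ℤ, (b : ℤ) * V = w2 ^ s ∧ G' = w4 ^ s := by
    intro hpV
    have hGc := cop_G m hp δ U V huv hpV
    rw [hG] at hGc
    have h1 : IsCoprime ((b : ℤ) * V) G' := hbG.mul_left hGc.of_mul_right_right
    obtain ⟨⟨w2, e2⟩, w4, e4⟩ := Int.eq_pow_of_mul_eq_pow_odd h1 hsodd hy
    exact ⟨w2, w4, e2, e4⟩
  have hUx : ((2 * m + 1 : ℕ) : ℤ) ∣ U → ((2 * m + 1 : ℕ) : ℤ) ∣ x := by
    intro h
    have h1 : ((2 * m + 1 : ℕ) : ℤ) ∣ (a : ℤ) * x ^ s := by rw [← hx]; exact h.mul_right _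
    rcases hpp.dvd_or_dvd h1 with h2 | h2
    · exact absurd h2 haz
    · exact hpp.dvd_of_dvd_pow h2
  have hVy : ((2 * m + 1 : ℕ) : ℤ) ∣ V → ((2 * m + 1 : ℕ) : ℤ) ∣ y := by
    intro h
    have h1 : ((2 * m + 1 : ℕ) : ℤ) ∣ y ^ s := by
      rw [← hy]
      exact (h.mul_left _).mul_right _
    exact hpp.dvd_of_dvd_pow h1
  refine ⟨?_, ?_, ?_⟩
  · intro hpx hpy E hE
    obtain ⟨w1, w3, e1, e3⟩ := partU (fun h => hpx (hUx h))
    obtain ⟨w2, w4, e2, e4⟩ := partV (fun h => hpy (hVy h))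
    refine badF_of δ m a 1 1 b κ κ False False E q s _ hq hsn h1q hbq0 U V w1 w2 w3 w4 huv
      ?_ ?_ ?_ ?_ (fun h => h.elim) (fun h => h.elim) hE
    · rw [Nat.cast_one, one_mul]; exact e1
    · rw [Nat.cast_one, one_mul]; exact e2
    · rw [hF, e3]
    · rw [hG, e4]
  · intro h zU hzU
    have hpU : ((2 * m + 1 : ℕ) : ℤ) ∣ U := by
      have h1 : ((2 * m + 1 : ℕ) : ℤ) ∣ U * F' := by
        rw [hx]
        exact (dvd_pow h hs0).mul_left _
      rcases hpp.dvd_or_dvd h1 with h2 | h2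
      · exact h2
      · apply (FG_dvd_p m hm1 hp δ U V hpδ).1
        rw [hF]
        exact h2.mul_left _
    have hpV : ¬ ((2 * m + 1 : ℕ) : ℤ) ∣ V := fun h2 =>
      hpp.not_isUnit (huv.isUnit_of_dvd' hpU h2)
    obtain ⟨w2, w4, e2, e4⟩ := partV hpV
    obtain ⟨F1, h1, h2⟩ := second_F m δ U V huv hud hpU
    rw [hF] at h1
    have hpF' : ((2 * m + 1 : ℕ) : ℤ) ∣ F' := by
      apply hpk.dvd_of_dvd_mul_left
      rw [h1]
      exact dvd_mul_right _ _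
    obtain ⟨P, hP⟩ := hpF'
    have hF1' : F1 = κ * P := by
      apply mul_left_cancel₀ hpp.ne_zero
      rw [← h1, hP]
      ring
    rw [hF1'] at h2
    rw [hP] at haF
    obtain ⟨w1, w3, e1, e3⟩ := fac_pow a ha0 s hsodd (((2 * m + 1 : ℕ) : ℤ) * U) P x
      h2.of_mul_right_right haF.of_mul_right_right (by rw [← hx, hP]; ring)
    refine badF_of δ m a (2 * m + 1) 1 b ((2 * m + 1) * κ) κ zU False 1 q s _ hq hsn hpq hbq0
      U V w1 w2 w3 w4 huv e1 ?_ ?_ ?_ hzU (fun h => h.elim) (fun t _ => by simp)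
    · rw [Nat.cast_one, one_mul]; exact e2
    · rw [hF, hP, e3]
      push_cast
      ring
    · rw [hG, e4]
  · intro h zV hzV
    have hpV : ((2 * m + 1 : ℕ) : ℤ) ∣ V := by
      have h1 : ((2 * m + 1 : ℕ) : ℤ) ∣ b * V * G' := by rw [hy]; exact dvd_pow h hs0
      rcases hpp.dvd_or_dvd h1 with h2 | h2
      · rcases hpp.dvd_or_dvd h2 with h3 | h3
        · exact absurd h3 hbz
        · exact h3
      · apply (FG_dvd_p m hm1 hp δ U V hpδ).2
        rw [hG]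
        exact h2.mul_left _
    have hpU : ¬ ((2 * m + 1 : ℕ) : ℤ) ∣ U := fun h2 =>
      hpp.not_isUnit (huv.isUnit_of_dvd' h2 hpV)
    obtain ⟨w1, w3, e1, e3⟩ := partU hpU
    obtain ⟨G1, h1, h2⟩ := second_G m δ U V huv hpV
    rw [hG] at h1
    have hpG' : ((2 * m + 1 : ℕ) : ℤ) ∣ G' := by
      apply hpk.dvd_of_dvd_mul_left
      rw [h1]
      exact dvd_mul_right _ _
    obtain ⟨P, hP⟩ := hpG'
    have hG1' : G1 = κ * P := by
      apply mul_left_cancel₀ hpp.ne_zero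
      rw [← h1, hP]
      ring
    rw [hG1'] at h2
    rw [hP] at hbG
    have h3 : IsCoprime ((b : ℤ) * (((2 * m + 1 : ℕ) : ℤ) * V)) P :=
      hbG.of_mul_right_right.mul_left h2.of_mul_right_right
    obtain ⟨⟨w2, e2⟩, w4, e4⟩ := Int.eq_pow_of_mul_eq_pow_odd h3 hsodd (by
      rw [← hy, hP]
      ring : (b : ℤ) * (((2 * m + 1 : ℕ) : ℤ) * V) * P = y ^ s)
    have hpbq : ((((2 * m + 1) * b : ℕ) : ℕ) : ZMod q) ≠ 0 := by
      rw [Nat.cast_mul]
      exact mul_ne_zero hpq hbq0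
    refine badF_of δ m a 1 1 ((2 * m + 1) * b) κ ((2 * m + 1) * κ) False zV 1 q s _ hq hsn h1q hpbq
      U V w1 w2 w3 w4 huv ?_ ?_ ?_ ?_ (fun h => h.elim) hzV (fun t _ => by simp)
    · rw [Nat.cast_one, one_mul]; exact e1
    · rw [Nat.cast_one, one_mul, ← e2]
      push_cast
      ring
    · rw [hF, e3]
    · rw [hG, hP, e4]
      push_cast
      ring


/-- scaling by two -/
lemma badF_double (m a2 b2 e h : ℕ) (zU zV : Prop) (q n : ℕ) (hq : q.Prime) (hq2 : 2 < q)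
    (hb : BadF 1 m 1 a2 1 (2 * b2) e h zU zV 1 q n) :
    BadF 1 m 2 a2 1 b2 (e * 2 ^ (2 * m)) (h * 2 ^ (2 * m)) zU zV 1 q n := by
  have hF : Fact q.Prime := ⟨hq⟩
  obtain ⟨U, V, hUV, hzU, hzV, _, hU, hV, hFF, hGG⟩ := hb
  have h2 : (2 : ZMod q) ≠ 0 := by
    have := natCast_ne_zero_of_lt (q := q) (k := 2) (by norm_num) hq2 (ZMod q)
    exact_mod_cast this
  obtain ⟨e1, e2⟩ := hom_FG ((1 : ℤ) : ZMod q) U V 2 m
  refine ⟨2 * U, 2 * V, ?_, ?_, ?_, ?_, ?_, ?_, ?_, ?_⟩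
  · rcases hUV with h | h
    · exact Or.inl (mul_ne_zero h2 h)
    · exact Or.inr (mul_ne_zero h2 h)
  · intro hz
    exact mul_ne_zero h2 (hzU hz)
  · intro hz
    exact mul_ne_zero h2 (hzV hz)
  · intro t _
    simp
  · rcases hU with h | h
    · left
      rw [h, mul_zero]
    · right
      have : (a2 : ZMod q) * (2 * U) = 2 * (a2 * U) := by ring
      rw [this, mul_pow, h]
      push_cast
      rw [one_pow, mul_one]
  · rcases hV with h | h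
    · left
      rw [h, mul_zero]
    · right
      rw [← h]
      push_cast
      ring
  · rw [e1]
    rcases hFF with h | h
    · left
      rw [h, mul_zero]
    · right
      rw [mul_pow, h]
      push_cast
      ring
  · rw [e2]
    rcases hGG with h | h
    · left
      rw [h, mul_zero]
    · right
      rw [mul_pow, h]
      push_cast
      ring

lemma badZ_double (m : ℕ) (q n : ℕ) (hq : q.Prime) (hq2 : 2 < q)
    (hb : BadZ 1 m 1 4 1 1 q n) : BadZ 1 m 2 2 (2 ^ (2 * m)) 1 q n := by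
  have := badF_double m 1 2 1 1 False False q n hq hq2 hb
  rwa [one_mul] at this

lemma badX_double (m : ℕ) (q n : ℕ) (hq : q.Prime) (hq2 : 2 < q) (zU : Prop)
    (hb : BadX 1 m 1 4 1 zU q n) : BadX 1 m 2 2 (2 ^ (2 * m)) zU q n := by
  unfold BadX at hb ⊢
  rw [mul_one] at hb
  have := badF_double m (2 * m + 1) 2 (2 * m + 1) 1 zU False q n hq hq2 hb
  rwa [one_mul] at this

lemma badY_double (m : ℕ) (q n : ℕ) (hq : q.Prime) (hq2 : 2 < q) (zV : Prop)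
    (hb : BadY 1 m 1 4 1 zV q n) : BadY 1 m 2 2 (2 ^ (2 * m)) zV q n := by
  unfold BadY at hb ⊢
  rw [mul_one] at hb
  have e : (2 * m + 1) * 4 = 2 * ((2 * m + 1) * 2) := by ring
  rw [e] at hb
  have := badF_double m 1 ((2 * m + 1) * 2) 1 (2 * m + 1) False zV q n hq hq2 hb
  rwa [one_mul] at this

end Pool.Agent.H326.FC
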