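import Pool.Agent.H326.FC.B
import Pool.Agent.H573.AHB.PsiE

/-!
The local theorems for `a^s + b^{2p} = c^{2p}`.
-/

set_option autoImplicit false

namespace Pool.Agent.H326.FC

open Polynomial
open Pool.Agent.H573.AHB

/-- the local theorem for `a^s + b^{2p} = c^{2p}`, `a` odd -/
theorem diff_odd (m : ℕ) (hm : OKm m) (s q : ℕ) (hsp : s.Prime)
    (hs2 : 2 < s) (hq : q.Prime) (hqm : 2 * (2 * m + 1) < q) (hsq : s ∣ q - 1)
    (hnb : ¬ W4 m q ((q - 1) / s)) (a b c : ℤ) (ha : Odd a)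
    (hco : IsCoprime c b) (heq : a ^ s + b ^ (2 * (2 * m + 1)) = c ^ (2 * (2 * m + 1))) :
    ¬ ((2 * m + 1 : ℕ) : ℤ) ∣ a ∧ (q : ℤ) ∣ b * c := by
  have hm1 := hm.1
  have hp := hm.2
  have hs0 : s ≠ 0 := by omega
  have hsodd : Odd s := hsp.odd_of_ne_two (by omega)
  have hpp : Prime ((2 * m + 1 : ℕ) : ℤ) := Nat.prime_iff_prime_int.mp hp
  have hqp : Prime ((q : ℕ) : ℤ) := Nat.prime_iff_prime_int.mp hq
  have hF1 : Fact q.Prime := ⟨hq⟩
  have hprod : (c ^ (2 * m + 1) - b ^ (2 * m + 1)) * (c ^ (2 * m + 1) + b ^ (2 * m + 1)) =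
      a ^ s := by
    have e1 : c ^ (2 * (2 * m + 1)) = (c ^ (2 * m + 1)) ^ 2 := by ring
    have e2 : b ^ (2 * (2 * m + 1)) = (b ^ (2 * m + 1)) ^ 2 := by ring
    rw [e1, e2] at heq
    linear_combination -heq
  have hodd : Odd (c ^ (2 * m + 1) - b ^ (2 * m + 1)) ∧ Odd (c ^ (2 * m + 1) + b ^ (2 * m + 1)) := by
    have h := ha.pow (n := s)
    rw [← hprod] at h
    exact Int.odd_mul.mp h
  have ho1 : Odd (c - b) := by
    obtain ⟨D, hD⟩ := sub_dvd_pow_sub_pow c b (2 * m + 1)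
    have h := hodd.1
    rw [hD, Int.odd_mul] at h
    exact h.1
  have ho2 : Odd (c + b) := by
    have : c + b = (c - b) + 2 * b := by ring
    rw [this]
    exact ho1.add_even (even_two_mul _)
  have hne : ∀ w : ℤ, Odd w → w ≠ 0 := by
    rintro w hw rfl
    exact (by decide : ¬ Odd (0 : ℤ)) hw
  obtain ⟨F', G', d1, d2, d3, d4⟩ := half_FG c b (hne _ ho1) (hne _ ho2) m
  have hcop : IsCoprime (c ^ (2 * m + 1) - b ^ (2 * m + 1)) (c ^ (2 * m + 1) + b ^ (2 * m + 1)) :=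
    cop_diff_sum hco.pow hodd.1
  obtain ⟨⟨α, hα⟩, β, hβ⟩ := Int.eq_pow_of_mul_eq_pow_odd hcop hsodd hprod
  have huv : IsCoprime (c - b) (c + b) := cop_diff_sum hco ho1
  have e4 : (4 : ℤ) ^ m = ((2 ^ (2 * m) : ℕ) : ℤ) := by
    push_cast
    rw [pow_mul]
    norm_num
  have hqn2 : ¬ (q : ℤ) ∣ 2 := by
    intro h3
    have h4 := Int.le_of_dvd (by norm_num) h3
    omega
  have h1n : ¬ (2 * m + 1) ∣ 1 := odd_not_dvd_le_two m 1 hm le_rfl (by norm_num)
  obtain ⟨c1, c2, c3⟩ := cfg 1 rfl m 1 1 (2 ^ (2 * m)) hm h1n h1n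
    (odd_not_dvd_two_pow m (2 * m) hm) (by norm_num) s q hsp hs2 hq hqm hsq (c - b) (c + b)
    F' G' α β huv (by rw [← e4]; exact d3) (by rw [← e4]; exact d4)
    (by rw [Nat.cast_one, one_mul, ← d1, hα]) (by rw [Nat.cast_one, one_mul, ← d2, hβ])
    (by rw [Nat.cast_one]; exact isCoprime_one_left) (by rw [Nat.cast_one]; exact isCoprime_one_left)
  have hα' : ¬ ((2 * m + 1 : ℕ) : ℤ) ∣ α := fun h =>
    hnb ⟨hm, Or.inr (Or.inl (c2 h False (fun h => h.elim)))⟩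
  have hβ' : ¬ ((2 * m + 1 : ℕ) : ℤ) ∣ β := fun h =>
    hnb ⟨hm, Or.inr (Or.inr (c3 h False (fun h => h.elim)))⟩
  constructor
  · intro hpa
    have h1 : ((2 * m + 1 : ℕ) : ℤ) ∣ α ^ s * β ^ s := by
      rw [← hα, ← hβ, hprod]
      exact dvd_pow hpa hs0
    rcases hpp.dvd_or_dvd h1 with h | h
    · exact hα' (hpp.dvd_of_dvd_pow h)
    · exact hβ' (hpp.dvd_of_dvd_pow h)
  · by_contra hqy
    apply hnb
    refine ⟨hm, Or.inl (c1 hα' hβ' (X ^ 2 - 1) ?_)⟩
    intro t ht h0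
    apply hqy
    rw [map_sub, map_pow, aeval_X, map_one, sub_eq_zero] at h0
    have h3 : (((c + b : ℤ) : ZMod q)) ^ 2 = (((c - b : ℤ) : ZMod q)) ^ 2 := by
      rw [ht, mul_pow, h0, mul_one]
    have h4 : ((4 * (b * c) : ℤ) : ZMod q) = 0 := by
      have e : (4 * (b * c) : ℤ) = (c + b) ^ 2 - (c - b) ^ 2 := by ring
      rw [e]
      push_cast at h3 ⊢
      rw [h3, sub_self]
    rw [ZMod.intCast_zmod_eq_zero_iff_dvd] at h4
    have e : (4 * (b * c) : ℤ) = 2 * (2 * (b * c)) := by ring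
    rw [e] at h4
    exact (hqp.dvd_or_dvd ((hqp.dvd_or_dvd h4).resolve_left hqn2)).resolve_left hqn2

/-- the case `a` even after the substitution -/
theorem diff_even_core (m : ℕ) (hm : OKm m) (s q : ℕ) (hsp : s.Prime)
    (hs2 : 2 < s) (hq : q.Prime) (hqm : 2 * (2 * m + 1) < q) (hsq : s ∣ q - 1)
    (hnb : ¬ W5 m q ((q - 1) / s)) (a u v : ℤ) (hu : Odd u) (hv : Even v)
    (hco : IsCoprime (u * Fh 1 u v m) (v * Gh 1 u v m))
    (heq : (u * Fh 1 u v m) * (4 * v * Gh 1 u v m) = a ^ s) :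
    ((2 * m + 1 : ℕ) : ℤ) ∣ a ∧ (q : ℤ) ∣ a := by
  have hm1 := hm.1
  have hp := hm.2
  have hsodd : Odd s := hsp.odd_of_ne_two (by omega)
  have hpp : Prime ((2 * m + 1 : ℕ) : ℤ) := Nat.prime_iff_prime_int.mp hp
  have hqp : Prime ((q : ℕ) : ℤ) := Nat.prime_iff_prime_int.mp hq
  have hF1 : Fact q.Prime := ⟨hq⟩
  obtain ⟨h3, h4⟩ := FG_par 1 u v m
  have hN : Odd ((u ^ 2 + 1 * v ^ 2) ^ m) := by
    apply Odd.pow
    exact hu.pow.add_even ((hv.pow_of_ne_zero two_ne_zero).mul_left 1)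
  have hFo : Odd (Fh 1 u v m) := by
    have := h3.add_odd hN
    rwa [sub_add_cancel] at this
  have hGo : Odd (Gh 1 u v m) := by
    have := h4.add_odd hN
    rwa [sub_add_cancel] at this
  have h4cop : ∀ w : ℤ, Odd w → IsCoprime (4 : ℤ) w := by
    rintro w ⟨k, hk⟩
    have h2 : IsCoprime (2 : ℤ) w := ⟨-k, 1, by rw [hk]; ring⟩
    have e : (4 : ℤ) = 2 * 2 := by norm_num
    rw [e]
    exact h2.mul_left h2
  have huv : IsCoprime u v := hco.of_mul_left_left.of_mul_right_left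
  have hcop : IsCoprime (u * Fh 1 u v m) (4 * v * Gh 1 u v m) := by
    rw [mul_assoc]
    exact (h4cop _ (hu.mul hFo)).symm.mul_right hco
  obtain ⟨⟨α, hα⟩, β, hβ⟩ := Int.eq_pow_of_mul_eq_pow_odd hcop hsodd heq
  have h1n : ¬ (2 * m + 1) ∣ 1 := odd_not_dvd_le_two m 1 hm le_rfl (by norm_num)
  have h4n : ¬ (2 * m + 1) ∣ 4 := by
    have := odd_not_dvd_two_pow m 2 hm
    norm_num at this
    exact this
  obtain ⟨c1, c2, c3⟩ := cfg4 1 rfl m 1 4 1 hm h1n h4n h1n le_rfl s q hsp hs2 hq hqm hsq u v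
    (Fh 1 u v m) (Gh 1 u v m) α β huv (by rw [Nat.cast_one, one_mul])
    (by rw [Nat.cast_one, one_mul]) (by rw [Nat.cast_one, one_mul, hα])
    (by rw [← hβ]; push_cast; ring)
    (by rw [Nat.cast_one]; exact isCoprime_one_left) (by push_cast; exact h4cop _ hGo)
  have hdiv : ∀ l : ℤ, Prime l → l ∣ β → l ∣ a := by
    intro l hl h
    apply hl.dvd_of_dvd_pow (n := s)
    rw [← heq, hβ]
    exact (dvd_pow h (by omega)).mul_left _
  have hq2 : 2 < q := by omega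
  by_cases hα' : ((2 * m + 1 : ℕ) : ℤ) ∣ α
  · exact absurd ⟨hm, Or.inr (Or.inl (badX_double m q _ hq hq2 False
      (c2 hα' False (fun h => h.elim))))⟩ hnb
  · by_cases hβ' : ((2 * m + 1 : ℕ) : ℤ) ∣ β
    · refine ⟨hdiv _ hpp hβ', ?_⟩
      by_contra hqa
      refine hnb ⟨hm, Or.inr (Or.inr (badY_double m q _ hq hq2 True (c3 hβ' True ?_)))⟩
      intro _ h
      apply hqa
      apply hqp.dvd_of_dvd_pow (n := s)
      rw [← heq]
      exact ((h.mul_left 4).mul_right _).mul_left _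
    · exact absurd ⟨hm, Or.inl (badZ_double m q _ hq hq2 (c1 hα' hβ' 1 (fun t _ => by
        rw [map_one]
        exact one_ne_zero)))⟩ hnb

/-- the local theorem for `a^s + b^{2p} = c^{2p}`, `a` even -/
theorem diff_even (m : ℕ) (hm : OKm m) (s q : ℕ) (hsp : s.Prime)
    (hs2 : 2 < s) (hq : q.Prime) (hqm : 2 * (2 * m + 1) < q) (hsq : s ∣ q - 1)
    (hnb : ¬ W5 m q ((q - 1) / s)) (a b c : ℤ) (ha : Even a)
    (hco : IsCoprime c b) (heq : a ^ s + b ^ (2 * (2 * m + 1)) = c ^ (2 * (2 * m + 1))) :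
    ((2 * m + 1 : ℕ) : ℤ) ∣ a ∧ (q : ℤ) ∣ a := by
  have key : ∀ b u v : ℤ, IsCoprime c b → a ^ s + b ^ (2 * (2 * m + 1)) = c ^ (2 * (2 * m + 1)) →
      c = u + v → b = v - u → Odd c → Even v → ((2 * m + 1 : ℕ) : ℤ) ∣ a ∧ (q : ℤ) ∣ a := by
    intro b u v hco heq hc hb hcodd hv
    have hu : Odd u := by
      by_contra hcon
      rw [Int.not_odd_iff_even] at hcon
      rw [hc] at hcodd
      exact (Int.not_even_iff_odd.mpr hcodd) (hcon.add hv)
    have h1 := pow_FG (δ := (1 : ℤ)) (ω := 1) (by norm_num) u v m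
    have h2 := pow_FG' (δ := (1 : ℤ)) (ω := 1) (by norm_num) u v m
    rw [one_mul] at h1 h2
    have h3 : c ^ (2 * m + 1) = u * Fh 1 u v m + v * Gh 1 u v m := by rw [hc]; exact h1
    have h4 : b ^ (2 * m + 1) = v * Gh 1 u v m - u * Fh 1 u v m := by
      have e : b = -(u - v) := by rw [hb]; ring
      rw [e, Odd.neg_pow ⟨m, rfl⟩, h2]
      ring
    refine diff_even_core m hm s q hsp hs2 hq hqm hsq hnb a u v hu hv ?_ ?_
    · have h5 : IsCoprime (c ^ (2 * m + 1)) (b ^ (2 * m + 1)) := hco.pow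
      rw [h3, h4] at h5
      obtain ⟨r, t, hrt⟩ := h5
      exact ⟨r - t, r + t, by linear_combination hrt⟩
    · have e1 : c ^ (2 * (2 * m + 1)) = (c ^ (2 * m + 1)) ^ 2 := by ring
      have e2 : b ^ (2 * (2 * m + 1)) = (b ^ (2 * m + 1)) ^ 2 := by ring
      rw [e1, e2, h3, h4] at heq
      linear_combination -heq
  have hcb : Even (c - b) := by
    obtain ⟨D, hD⟩ : c - b ∣ c ^ (2 * (2 * m + 1)) - b ^ (2 * (2 * m + 1)) :=
      sub_dvd_pow_sub_pow _ _ _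
    by_contra hcon
    rw [Int.not_even_iff_odd] at hcon
    have h1 : Even (c ^ (2 * (2 * m + 1)) - b ^ (2 * (2 * m + 1))) := by
      have e : c ^ (2 * (2 * m + 1)) - b ^ (2 * (2 * m + 1)) = a ^ s := by rw [← heq]; ring
      rw [e]
      exact ha.pow_of_ne_zero (by omega)
    have h2 : Odd (c + b) := by
      have : c + b = (c - b) + 2 * b := by ring
      rw [this]
      exact hcon.add_even (even_two_mul _)
    rw [Int.even_sub, Int.even_pow' (by omega), Int.even_pow' (by omega)] at h1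
    exact (Int.not_even_iff_odd.mpr hcon) (Int.even_sub.mpr h1)
  have hcodd : Odd c := by
    by_contra hcon
    rw [Int.not_odd_iff_even] at hcon
    have hbe : Even b := (Int.even_sub.mp hcb).mp hcon
    have := hco.isUnit_of_dvd' hcon.two_dvd hbe.two_dvd
    rw [Int.isUnit_iff] at this
    omega
  obtain ⟨u, hu⟩ := hcb.two_dvd
  rcases Int.even_or_odd u with hue | huo
  · refine key (-b) (c - u) u hco.neg_right ?_ (by ring) ?_ hcodd hue
    · rw [Even.neg_pow ⟨2 * m + 1, by ring⟩]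
      exact heq
    · linarith
  · refine key b u (c - u) hco heq (by ring) (by linarith) hcodd ?_
    exact Odd.sub_odd hcodd huo

end Pool.Agent.H326.FC
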