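import Pool.Agent.H326.FC.A

/-!
The local theorem for `a^{2p} + b^{2p} = c^s`, `p ∤ c`.
-/

set_option autoImplicit false

namespace Pool.Agent.H326.FC

open Polynomial
open Pool.Agent.H573.AHB

/-- a Gaussian integer that is an `s`-th power up to units is zero or in `μ_n` modulo `q` -/
lemma pow_or (q s n : ℕ) (hq : q.Prime) (hsn : s * n = q - 1) (h4 : 4 ∣ n)
    (ψ : GaussianInt →+* ZMod q) (d W : GaussianInt) (h : Associated (d ^ s) W) :
    ψ W = 0 ∨ (ψ W) ^ n = 1 := by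
  have hF : Fact q.Prime := ⟨hq⟩
  obtain ⟨ε, rfl⟩ := h
  obtain ⟨k, hk⟩ := h4
  have hε : (ψ (ε : GaussianInt)) ^ n = 1 := by
    rw [hk, pow_mul, ← map_pow, gi_unit _ ε.isUnit, map_one, one_pow]
  have hs : s ≠ 0 := by
    rintro rfl
    have := hq.two_le
    omega
  by_cases hd : ψ d = 0
  · left
    rw [map_mul, map_pow, hd, zero_pow hs, zero_mul]
  · right
    rw [map_mul, map_pow, mul_pow, hε, mul_one, ← pow_mul, hsn,
      ZMod.pow_card_sub_one_eq_one hd]

/-- the local theorem for `a^{2p} + b^{2p} = c^s`, `p ∤ c` -/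
theorem sum_loc' (m : ℕ) (hm : OKm m) (s q : ℕ) (hsp : s.Prime)
    (hs2 : 2 < s) (hq : q.Prime) (hqm : 2 * (2 * m + 1) < q) (hq4 : 4 ∣ q - 1) (hsq : s ∣ q - 1)
    (hnb : ¬ W4 m q ((q - 1) / s)) (a b c : ℤ)
    (hco : IsCoprime a b) (hpc : ¬ ((2 * m + 1 : ℕ) : ℤ) ∣ c)
    (heq : a ^ (2 * (2 * m + 1)) + b ^ (2 * (2 * m + 1)) = c ^ s) : (q : ℤ) ∣ a * b := by
  have hm1 := hm.1
  have hp := hm.2
  have hsodd : Odd s := hsp.odd_of_ne_two (by omega)
  have hpp : Prime ((2 * m + 1 : ℕ) : ℤ) := Nat.prime_iff_prime_int.mp hp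
  have hqp : Prime ((q : ℕ) : ℤ) := Nat.prime_iff_prime_int.mp hq
  have hF1 : Fact q.Prime := ⟨hq⟩
  have hpodd : Odd (2 * m + 1) := ⟨m, rfl⟩
  obtain ⟨t, ht⟩ := hsodd
  have ea : a ^ (2 * (2 * m + 1)) = (a ^ (2 * m + 1)) ^ 2 := by ring
  have eb : b ^ (2 * (2 * m + 1)) = (b ^ (2 * m + 1)) ^ 2 := by ring
  have hcodd : Odd c := by
    refine z_odd (a ^ (2 * m + 1)) (b ^ (2 * m + 1)) c t (by omega) hco.pow ?_
    rw [← ea, ← eb, heq, ht]
  obtain ⟨ω, hω⟩ : ∃ ω : GaussianInt, ω = ⟨0, 1⟩ := ⟨_, rfl⟩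
  have hω2 : ω * ω = -1 := by
    rw [hω]
    apply Zsqrtd.ext
    · simp
    · simp
  have hωinv : ω ^ (2 * m + 1) * (-ω) ^ (2 * m + 1) = 1 := by
    rw [← mul_pow]
    have : ω * -ω = 1 := by linear_combination -hω2
    rw [this, one_pow]
  obtain ⟨A, hA⟩ : ∃ A : GaussianInt, A = (a : GaussianInt) + ω * b := ⟨_, rfl⟩
  obtain ⟨B, hB⟩ : ∃ B : GaussianInt, B = (a : GaussianInt) - ω * b := ⟨_, rfl⟩
  obtain ⟨P, hP⟩ : ∃ P : GaussianInt, P = (a : GaussianInt) ^ (2 * m + 1) +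
    (ω * b) ^ (2 * m + 1) := ⟨_, rfl⟩
  obtain ⟨Q, hQ⟩ : ∃ Q : GaussianInt, Q = (a : GaussianInt) ^ (2 * m + 1) -
    (ω * b) ^ (2 * m + 1) := ⟨_, rfl⟩
  have hheq : (a : GaussianInt) ^ (2 * (2 * m + 1)) + (b : GaussianInt) ^ (2 * (2 * m + 1)) =
      (c : GaussianInt) ^ s := by
    have := congrArg (Int.cast : ℤ → GaussianInt) heq
    push_cast at this
    exact this
  have hPQ : P * Q = (c : GaussianInt) ^ s := by
    rw [← hheq, hP, hQ]
    have e1 : ((ω * b) ^ (2 * m + 1)) ^ 2 = -(b : GaussianInt) ^ (2 * (2 * m + 1)) := by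
      have e2 : ((ω * b) ^ (2 * m + 1)) ^ 2 = ((ω * ω) * (b ^ 2)) ^ (2 * m + 1) := by ring
      rw [e2, hω2, neg_one_mul, Odd.neg_pow hpodd, ← pow_mul]
    have e3 : ((a : GaussianInt) ^ (2 * m + 1)) ^ 2 = (a : GaussianInt) ^ (2 * (2 * m + 1)) := by
      ring
    linear_combination e3 - e1
  -- coprimality
  have h2c : IsCoprime (2 : GaussianInt) ((c : GaussianInt) ^ s) := by
    have h1 : IsCoprime (2 : ℤ) (c ^ s) := by
      apply IsCoprime.pow_right
      obtain ⟨k, hk⟩ := hcodd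
      exact ⟨-k, 1, by rw [hk]; ring⟩
    have := h1.intCast (R := GaussianInt)
    push_cast at this
    exact this
  have hcopPQ : IsCoprime P Q := by
    obtain ⟨r, u, hru⟩ : IsCoprime (a ^ (2 * m + 1)) (b ^ (2 * m + 1)) := hco.pow
    obtain ⟨x, y, hxy⟩ := h2c
    have hru' : (r : GaussianInt) * (a : GaussianInt) ^ (2 * m + 1) +
        u * (b : GaussianInt) ^ (2 * m + 1) = 1 := by
      have := congrArg (Int.cast : ℤ → GaussianInt) hru
      push_cast at this
      exact this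
    have e1 : (r : GaussianInt) * (P + Q) + u * (-ω) ^ (2 * m + 1) * (P - Q) = 2 := by
      rw [hP, hQ, mul_pow]
      linear_combination 2 * hru' + 2 * u * (b : GaussianInt) ^ (2 * m + 1) * hωinv
    refine ⟨x * (r + u * (-ω) ^ (2 * m + 1)) + y * Q, x * (r - u * (-ω) ^ (2 * m + 1)), ?_⟩
    rw [← hPQ] at hxy
    linear_combination x * e1 + hxy
  obtain ⟨H, hH⟩ : A ∣ P := by
    rw [hA, hP]
    exact Odd.add_dvd_pow_add_pow _ _ hpodd
  obtain ⟨K, hK⟩ : B ∣ Q := by
    rw [hB, hQ]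
    exact sub_dvd_pow_sub_pow _ _ _
  have hc0 : (c : GaussianInt) ^ s ≠ 0 := by
    apply pow_ne_zero
    intro h0
    have h1 : c = 0 := by exact_mod_cast h0
    rw [h1] at hcodd
    exact (by decide : ¬ Odd (0 : ℤ)) hcodd
  have hA0 : A ≠ 0 := by
    intro h0
    rw [← hPQ, hH, h0] at hc0
    exact hc0 (by ring)
  have hB0 : B ≠ 0 := by
    intro h0
    rw [← hPQ, hK, h0] at hc0
    exact hc0 (by ring)
  have h20 : (2 : GaussianInt) ≠ 0 := by
    intro h
    have := congrArg Zsqrtd.re h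
    simp at this
  have hABsum : A + 1 * B = 2 * a := by rw [hA, hB]; ring
  have hABdiff : A - 1 * B = 2 * (ω * b) := by rw [hA, hB]; ring
  have g1 := pow_FG (δ := (1 : GaussianInt)) (ω := 1) (by norm_num) A B m
  have g2 := pow_FG' (δ := (1 : GaussianInt)) (ω := 1) (by norm_num) A B m
  rw [hABsum, mul_pow] at g1
  rw [hABdiff, mul_pow] at g2
  have e4 : (2 : GaussianInt) ^ (2 * m + 1) = 2 * 4 ^ m := by
    rw [pow_succ, pow_mul]
    norm_num
    ring
  have hFA : Fh 1 A B m = 4 ^ m * H := by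
    apply mul_left_cancel₀ (mul_ne_zero h20 hA0)
    rw [e4] at g1 g2
    calc 2 * A * Fh 1 A B m = 2 * 4 ^ m * P := by rw [hP]; linear_combination -g1 - g2
      _ = _ := by rw [hH]; ring
  have hGA : Gh 1 A B m = 4 ^ m * K := by
    apply mul_left_cancel₀ (mul_ne_zero h20 hB0)
    rw [e4] at g1 g2
    calc 2 * B * Gh 1 A B m = 2 * 4 ^ m * Q := by rw [hQ]; linear_combination -g1 + g2
      _ = _ := by rw [hK]; ring
  have hpPQ : IsCoprime ((2 * m + 1 : ℕ) : GaussianInt) (P * Q) := by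
    rw [hPQ]
    have h1 : IsCoprime ((2 * m + 1 : ℕ) : ℤ) (c ^ s) :=
      IsCoprime.pow_right ((hpp.coprime_iff_not_dvd).mpr hpc)
    have := h1.intCast (R := GaussianInt)
    push_cast at this ⊢
    exact this
  rw [hH, hK] at hpPQ hcopPQ
  have hAB : IsCoprime A B := hcopPQ.of_mul_left_left.of_mul_right_left
  have hpA : IsCoprime ((2 * m + 1 : ℕ) : GaussianInt) A :=
    hpPQ.of_mul_right_left.of_mul_right_left
  have hpB : IsCoprime ((2 * m + 1 : ℕ) : GaussianInt) B :=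
    hpPQ.of_mul_right_right.of_mul_right_left
  push_cast at hpA hpB
  have hAH : IsCoprime A H := by
    obtain ⟨k, hk⟩ := FG_mod_u 1 A B m
    have h1 : Fh 1 A B m = (2 * m + 1) * (1 * B ^ 2) ^ m + A * k := by linear_combination hk
    have h2 : IsCoprime A (Fh 1 A B m) := by
      rw [h1]
      refine IsCoprime.add_mul_left_right ?_ _
      exact hpA.symm.mul_right (IsCoprime.pow_right (isCoprime_one_right.mul_right hAB.pow_right))
    rw [hFA] at h2
    exact h2.of_mul_right_right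
  have hBK : IsCoprime B K := by
    obtain ⟨k, hk⟩ := FG_mod_v 1 A B m
    have h1 : Gh 1 A B m = (2 * m + 1) * A ^ (2 * m) + B * k := by linear_combination hk
    have h2 : IsCoprime B (Gh 1 A B m) := by
      rw [h1]
      refine IsCoprime.add_mul_left_right ?_ _
      exact hpB.symm.mul_right hAB.symm.pow_right
    rw [hGA] at h2
    exact h2.of_mul_right_right
  rw [hH, hK] at hPQ
  have hAK : IsCoprime A K := hcopPQ.of_mul_left_left.of_mul_right_right
  have hHB : IsCoprime H B := hcopPQ.of_mul_left_right.of_mul_right_left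
  have hHK : IsCoprime H K := hcopPQ.of_mul_left_right.of_mul_right_right
  obtain ⟨dA, hdA⟩ := exists_associated_pow_of_mul_eq_pow' (hAH.mul_right (hAB.mul_right hAK))
    (by rw [← hPQ]; ring : A * (H * (B * K)) = (c : GaussianInt) ^ s)
  obtain ⟨dB, hdB⟩ := exists_associated_pow_of_mul_eq_pow' (hBK.mul_right (hAB.symm.mul_right hHB.symm))
    (by rw [← hPQ]; ring : B * (K * (A * H)) = (c : GaussianInt) ^ s)
  obtain ⟨dH, hdH⟩ := exists_associated_pow_of_mul_eq_pow' (hAH.symm.mul_right (hHB.mul_right hHK))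
    (by rw [← hPQ]; ring : H * (A * (B * K)) = (c : GaussianInt) ^ s)
  obtain ⟨dK, hdK⟩ := exists_associated_pow_of_mul_eq_pow' (hBK.symm.mul_right (hAK.symm.mul_right hHK.symm))
    (by rw [← hPQ]; ring : K * (B * (A * H)) = (c : GaussianInt) ^ s)
  -- reduction modulo `q`
  have hsn : s * ((q - 1) / s) = q - 1 := Nat.mul_div_cancel' hsq
  have hn4 : 4 ∣ (q - 1) / s := by
    rw [← hsn] at hq4
    refine Nat.Coprime.dvd_of_dvd_mul_left ?_ hq4
    have h2s : Nat.Coprime 2 s := (Nat.coprime_primes Nat.prime_two hsp).mpr (by omega)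
    exact Nat.Coprime.pow_left 2 h2s
  have hqmod : q % 4 ≠ 3 := by
    obtain ⟨k, hk⟩ := hq4
    have := hq.two_le
    omega
  obtain ⟨ι, hι⟩ := (ZMod.exists_sq_eq_neg_one_iff (p := q)).mpr hqmod
  obtain ⟨ψ, hψ⟩ : ∃ ψ : GaussianInt →+* ZMod q, ψ ω = ι := by
    refine ⟨Zsqrtd.lift ⟨ι, by rw [← hι]; push_cast; rfl⟩, ?_⟩
    rw [hω]
    simp [Zsqrtd.lift]
  have hψi : ∀ w : ℤ, ψ (w : GaussianInt) = (w : ZMod q) := fun w => map_intCast ψ w
  have hι0 : ι ≠ 0 := by
    rintro rfl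
    rw [mul_zero, neg_eq_zero] at hι
    exact one_ne_zero hι
  have h2q : (2 : ZMod q) ≠ 0 := by
    have := natCast_ne_zero_of_lt (q := q) (k := 2) (by norm_num) (by omega) (ZMod q)
    exact_mod_cast this
  by_contra hqab
  have hab0 : (a : ZMod q) * b ≠ 0 := by
    intro h0
    apply hqab
    rw [← ZMod.intCast_zmod_eq_zero_iff_dvd]
    push_cast
    exact h0
  have hsum : ψ A + ψ B = 2 * a := by
    rw [← map_add, hA, hB]
    have e : (a : GaussianInt) + ω * b + (a - ω * b) = 2 * a := by ring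
    rw [e, map_mul, hψi, map_ofNat]
  have hdif : ψ A - ψ B = 2 * (ι * b) := by
    rw [← map_sub, hA, hB]
    have e : (a : GaussianInt) + ω * b - (a - ω * b) = 2 * (ω * b) := by ring
    rw [e, map_mul, map_mul, hψi, hψ, map_ofNat]
  obtain ⟨m1, m2⟩ := map_FGh ψ 1 A B m
  rw [map_one] at m1 m2
  apply hnb
  refine ⟨hm, Or.inl ⟨ψ A, ψ B, ?_, fun h => h.elim, fun h => h.elim, ?_, ?_, ?_, ?_, ?_⟩⟩
  · by_contra hcon
    push Not at hcon
    rw [hcon.1, hcon.2, add_zero] at hsum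
    rcases mul_eq_zero.mp hsum.symm with h | h
    · exact h2q h
    · exact hab0 (by rw [h, zero_mul])
  · intro u hu h0
    rw [map_sub, map_pow, aeval_X, map_one, sub_eq_zero] at h0
    have h3 : (ψ A + ψ B) * (ψ A - ψ B) = 0 := by
      rw [hu]
      linear_combination (-(ψ A) ^ 2) * h0
    rw [hsum, hdif] at h3
    rcases mul_eq_zero.mp h3 with h | h
    · rcases mul_eq_zero.mp h with h | h
      · exact h2q h
      · exact hab0 (by rw [h, zero_mul])
    · rcases mul_eq_zero.mp h with h | h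
      · exact h2q h
      · rcases mul_eq_zero.mp h with h | h
        · exact hι0 h
        · exact hab0 (by rw [h, mul_zero])
  · rcases pow_or q s _ hq hsn hn4 ψ dA A hdA with h | h
    · exact Or.inl h
    · right
      rw [Nat.cast_one, one_mul, one_pow, h]
  · rcases pow_or q s _ hq hsn hn4 ψ dB B hdB with h | h
    · exact Or.inl h
    · right
      rw [Nat.cast_one, one_mul, one_pow, h]
  · rw [Int.cast_one, ← m1, hFA, map_mul, map_pow, map_ofNat]
    rcases pow_or q s _ hq hsn hn4 ψ dH H hdH with h | h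
    · left
      rw [h, mul_zero]
    · right
      rw [mul_pow, h, mul_one]
      push_cast
      rw [pow_mul (2 : ZMod q) 2 m]
      norm_num
  · rw [Int.cast_one, ← m2, hGA, map_mul, map_pow, map_ofNat]
    rcases pow_or q s _ hq hsn hn4 ψ dK K hdK with h | h
    · left
      rw [h, mul_zero]
    · right
      rw [mul_pow, h, mul_one]
      push_cast
      rw [pow_mul (2 : ZMod q) 2 m]
      norm_num

end Pool.Agent.H326.FC
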